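import Pool.Agent.W106.CW.Stm

set_option autoImplicit false

namespace Pool.Agent.W54.CW

open Pool.Agent.W106.CW Filter Topology Set

theorem implicit1 (φ γ Λ : ℝ → ℝ) (c0 D d : ℝ) (hγ : ContinuousAt γ c0)
    (hφ : HasDerivAt φ D (γ c0)) (hD : D ≠ 0) (hΛ : HasDerivAt Λ d c0)
    (heq : ∀ᶠ c in 𝓝 c0, φ (γ c) = Λ c) : HasDerivAt γ (d / D) c0 := by
  have h1 : Tendsto (fun c => dslope φ (γ c0) (γ c)) (𝓝 c0) (𝓝 D) := by
    have h2 : ContinuousAt (dslope φ (γ c0)) (γ c0) :=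
      continuousAt_dslope_same.2 hφ.differentiableAt
    have h3 : dslope φ (γ c0) (γ c0) = D := by rw [dslope_same, hφ.deriv]
    have h4 := h2.tendsto.comp hγ.tendsto
    rw [h3] at h4
    exact h4
  rw [hasDerivAt_iff_tendsto_slope] at hΛ ⊢
  have h5 : Tendsto (fun c => slope Λ c0 c / dslope φ (γ c0) (γ c)) (𝓝[≠] c0) (𝓝 (d / D)) :=
    hΛ.div (h1.mono_left nhdsWithin_le_nhds) hD
  refine h5.congr' ?_
  have h6 : ∀ᶠ c in 𝓝[≠] c0, dslope φ (γ c0) (γ c) ≠ 0 :=
    (h1.mono_left nhdsWithin_le_nhds).eventually_ne hD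
  have h7 : φ (γ c0) = Λ c0 := heq.self_of_nhds
  filter_upwards [h6, heq.filter_mono nhdsWithin_le_nhds, self_mem_nhdsWithin] with c h8 h9 h10
  have h11 := sub_smul_dslope φ (γ c0) (γ c)
  rw [smul_eq_mul, h9, h7] at h11
  rw [slope_def_field, slope_def_field, ← h11]
  have h12 : c - c0 ≠ 0 := sub_ne_zero.2 h10
  field_simp

theorem der_Lam (t : ℝ) (ht : t ≠ 0) : HasDerivAt Lam (2 / t - 1) t := by
  have h := ((Real.hasDerivAt_log ht).const_mul 2).sub (hasDerivAt_id t)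
  have e : 2 * t⁻¹ - 1 = 2 / t - 1 := by rw [div_eq_mul_inv]
  rw [e] at h
  exact h

theorem der_phi (s g : ℝ) (hg : g ≠ 0) :
    HasDerivAt (fun g => Lam g + (2 - g) ^ 2 * s) ((2 - g) * (1 - 2 * s * g) / g) g := by
  have h1 : HasDerivAt (fun g : ℝ => (2 - g) ^ 2) (((2 : ℕ) : ℝ) * (2 - g) ^ (2 - 1) * (-1)) g :=
    ((hasDerivAt_id g).const_sub 2).pow 2
  have h := (der_Lam g hg).add (h1.mul_const s)
  have e : 2 / g - 1 + ((2 : ℕ) : ℝ) * (2 - g) ^ (2 - 1) * (-1) * s =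
      (2 - g) * (1 - 2 * s * g) / g := by
    field_simp
    push_cast
    ring
  rw [e] at h
  exact h

theorem gam_root (h : RootEx) (s c : ℝ) (h0 : 0 < c) (h1 : c < 1) : Root s c (gam s c) := by
  unfold gam
  rw [dif_pos (h.1 s c h0 h1)]
  exact Classical.choose_spec _

theorem contAt (h : RootEx) (s0 c0 : ℝ) (h0 : 0 < c0) (h1 : c0 < 1) :
    ContinuousAt (fun p : ℝ × ℝ => gam p.1 p.2) (s0, c0) := by
  have hr := gam_root h s0 c0 h0 h1
  obtain ⟨g0, hg0⟩ : ∃ g0 : ℝ, g0 = gam s0 c0 := ⟨_, rfl⟩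
  rw [← hg0] at hr
  obtain ⟨r1, r2, r3, r4⟩ := hr
  have hopen : IsOpen {g : ℝ | 0 < g ∧ g < 2 ∧ 2 * s0 * g < 1} := by
    refine (isOpen_lt continuous_const continuous_id).inter
      ((isOpen_lt continuous_id continuous_const).inter
        (isOpen_lt (continuous_const.mul continuous_id) continuous_const))
  obtain ⟨r, hr0, hball⟩ := Metric.isOpen_iff.1 hopen g0 ⟨r1, r2, r3⟩
  unfold ContinuousAt
  rw [Metric.tendsto_nhds]
  intro ε hε
  obtain ⟨e, he0, heε, her⟩ : ∃ e : ℝ, 0 < e ∧ e ≤ ε ∧ e < r :=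
    ⟨min ε (r / 2), lt_min hε (by linarith), min_le_left _ _,
      (min_le_right _ _).trans_lt (by linarith)⟩
  have hin : ∀ g : ℝ, g ∈ Icc (g0 - e) (g0 + e) → 0 < g ∧ g < 2 ∧ 2 * s0 * g < 1 := by
    intro g hg
    apply hball
    rw [Metric.mem_ball, Real.dist_eq, abs_lt]
    constructor
    · linarith [hg.1]
    · linarith [hg.2]
  have hmono : StrictMonoOn (fun g => Lam g + (2 - g) ^ 2 * s0) (Icc (g0 - e) (g0 + e)) := by
    refine strictMonoOn_of_deriv_pos (convex_Icc _ _) ?_ ?_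
    · intro g hg
      exact (der_phi s0 g (hin g hg).1.ne').continuousAt.continuousWithinAt
    · intro g hg
      have hg' := hin g (interior_subset hg)
      rw [(der_phi s0 g hg'.1.ne').deriv]
      have e1 : 0 < 2 - g := by linarith [hg'.2.1]
      have e2 : 0 < 1 - 2 * s0 * g := by linarith [hg'.2.2]
      have e3 := hg'.1
      positivity
  have hmem0 : g0 ∈ Icc (g0 - e) (g0 + e) := ⟨by linarith, by linarith⟩
  have hmem1 : g0 - e ∈ Icc (g0 - e) (g0 + e) := ⟨le_rfl, by linarith⟩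
  have hmem2 : g0 + e ∈ Icc (g0 - e) (g0 + e) := ⟨by linarith, le_rfl⟩
  have hlt1 : Lam (g0 - e) + (2 - (g0 - e)) ^ 2 * s0 < Lam c0 := by
    have := hmono hmem1 hmem0 (by linarith)
    rw [← r4]
    exact this
  have hlt2 : Lam c0 < Lam (g0 + e) + (2 - (g0 + e)) ^ 2 * s0 := by
    have := hmono hmem0 hmem2 (by linarith)
    rw [← r4]
    exact this
  have c1 : Tendsto (fun p : ℝ × ℝ => Lam (g0 - e) + (2 - (g0 - e)) ^ 2 * p.1) (𝓝 (s0, c0))
      (𝓝 (Lam (g0 - e) + (2 - (g0 - e)) ^ 2 * s0)) :=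
    (continuous_const.add (continuous_const.mul continuous_fst)).tendsto (s0, c0)
  have c2 : Tendsto (fun p : ℝ × ℝ => Lam (g0 + e) + (2 - (g0 + e)) ^ 2 * p.1) (𝓝 (s0, c0))
      (𝓝 (Lam (g0 + e) + (2 - (g0 + e)) ^ 2 * s0)) :=
    (continuous_const.add (continuous_const.mul continuous_fst)).tendsto (s0, c0)
  have c3 : Tendsto (fun p : ℝ × ℝ => Lam p.2) (𝓝 (s0, c0)) (𝓝 (Lam c0)) :=
    ((der_Lam c0 h0.ne').continuousAt.tendsto).comp (continuous_snd.tendsto (s0, c0))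
  have c4 : Tendsto (fun p : ℝ × ℝ => 2 * p.1 * (g0 - e)) (𝓝 (s0, c0))
      (𝓝 (2 * s0 * (g0 - e))) :=
    ((continuous_const.mul continuous_fst).mul continuous_const).tendsto (s0, c0)
  have c5 : Tendsto (fun p : ℝ × ℝ => 2 * p.1 * (g0 + e)) (𝓝 (s0, c0))
      (𝓝 (2 * s0 * (g0 + e))) :=
    ((continuous_const.mul continuous_fst).mul continuous_const).tendsto (s0, c0)
  have c6 : Tendsto (fun p : ℝ × ℝ => p.2) (𝓝 (s0, c0)) (𝓝 c0) :=
    continuous_snd.tendsto (s0, c0)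
  filter_upwards [c1.eventually_lt c3 hlt1, c3.eventually_lt c2 hlt2,
    c4.eventually_lt_const (hin _ hmem1).2.2, c5.eventually_lt_const (hin _ hmem2).2.2,
    c6.eventually_const_lt h0, c6.eventually_lt_const h1] with p k1 k2 k3 k4 k5 k6
  have hcont : ContinuousOn (fun g => Lam g + (2 - g) ^ 2 * p.1) (Icc (g0 - e) (g0 + e)) := by
    intro g hg
    exact (der_phi p.1 g (hin g hg).1.ne').continuousAt.continuousWithinAt
  obtain ⟨g, hg, hgeq⟩ := intermediate_value_Ioo (by linarith : g0 - e ≤ g0 + e) hcont ⟨k1, k2⟩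
  have hgI : g ∈ Icc (g0 - e) (g0 + e) := ⟨hg.1.le, hg.2.le⟩
  have hroot : Root p.1 p.2 g := by
    refine ⟨(hin g hgI).1, (hin g hgI).2.1, ?_, hgeq⟩
    rcases le_total 0 p.1 with hp | hp
    · have : 2 * p.1 * g ≤ 2 * p.1 * (g0 + e) :=
        mul_le_mul_of_nonneg_left hgI.2 (by linarith)
      linarith
    · have : 2 * p.1 * g ≤ 2 * p.1 * (g0 - e) :=
        mul_le_mul_of_nonpos_left hgI.1 (by linarith)
      linarith
  have heq : gam p.1 p.2 = g := h.2.1 _ _ _ _ (gam_root h p.1 p.2 k5 k6) hroot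
  show dist (gam p.1 p.2) (gam s0 c0) < ε
  rw [heq, ← hg0, Real.dist_eq, abs_lt]
  constructor
  · linarith [hg.1]
  · linarith [hg.2]

theorem rootDer (h : RootEx) : RootDer := by
  refine ⟨?_, ?_, ?_⟩
  · rintro ⟨s, c⟩ hp
    exact (contAt h s c hp.2.1 hp.2.2).continuousWithinAt
  · intro s c h0 h1
    obtain ⟨r1, r2, r3, r4⟩ := gam_root h s c h0 h1
    have hc : ContinuousAt (fun c' => gam s c') c := by
      have e1 : ContinuousAt (fun c' : ℝ => (s, c')) c := by fun_prop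
      exact ContinuousAt.comp (f := fun c' : ℝ => (s, c'))
        (g := fun p : ℝ × ℝ => gam p.1 p.2) (contAt h s c h0 h1) e1
    have e2 : 0 < 2 - gam s c := by linarith
    have e3 : 0 < 1 - 2 * s * gam s c := by linarith
    have hD : (2 - gam s c) * (1 - 2 * s * gam s c) / gam s c ≠ 0 := by positivity
    have key := implicit1 (fun g => Lam g + (2 - g) ^ 2 * s) (fun c' => gam s c') Lam c
      ((2 - gam s c) * (1 - 2 * s * gam s c) / gam s c) (2 / c - 1) hc
      (der_phi s (gam s c) r1.ne') hD (der_Lam c h0.ne') (by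
        filter_upwards [Ioo_mem_nhds h0 h1] with c' hc'
        exact (gam_root h s c' hc'.1 hc'.2).2.2.2)
    have e4 : (2 / c - 1) / ((2 - gam s c) * (1 - 2 * s * gam s c) / gam s c) =
        (2 - c) * gam s c / (c * (2 - gam s c) * (1 - 2 * s * gam s c)) := by
      field_simp
    rw [e4] at key
    exact key
  · intro s c h0 h1
    obtain ⟨r1, r2, r3, r4⟩ := gam_root h s c h0 h1
    have hc : ContinuousAt (fun s' => gam s' c) s := by
      have e1 : ContinuousAt (fun s' : ℝ => (s', c)) s := by fun_prop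
      exact ContinuousAt.comp (f := fun s' : ℝ => (s', c))
        (g := fun p : ℝ × ℝ => gam p.1 p.2) (contAt h s c h0 h1) e1
    have e2 : 0 < 2 - gam s c := by linarith
    have e3 : 0 < 1 - 2 * s * gam s c := by linarith
    obtain ⟨g0, hg0⟩ : ∃ g0 : ℝ, g0 = gam s c := ⟨_, rfl⟩
    have hS : HasDerivAt (fun g => (Lam c - Lam g) / (2 - g) ^ 2)
        (-((1 - 2 * s * gam s c) / (gam s c * (2 - gam s c)))) (gam s c) := by
      rw [← hg0] at r1 r2 r3 r4 e2 e3 ⊢
      have h2 : HasDerivAt (fun g : ℝ => (2 - g) ^ 2) (((2 : ℕ) : ℝ) * (2 - g0) ^ (2 - 1) * (-1)) g0 :=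
        ((hasDerivAt_id g0).const_sub 2).pow 2
      have h3 := ((der_Lam g0 r1.ne').const_sub (Lam c)).div h2 (by positivity)
      have e4 : Lam c - Lam g0 = (2 - g0) ^ 2 * s := by linarith
      rw [e4] at h3
      have e5 : (-(2 / g0 - 1) * (2 - g0) ^ 2 -
          (2 - g0) ^ 2 * s * (((2 : ℕ) : ℝ) * (2 - g0) ^ (2 - 1) * -1)) / ((2 - g0) ^ 2) ^ 2 =
          -((1 - 2 * s * g0) / (g0 * (2 - g0))) := by
        have : (2 - g0) ≠ 0 := e2.ne'
        field_simp
        push_cast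
        ring
      rw [e5] at h3
      exact h3
    have hne : -((1 - 2 * s * gam s c) / (gam s c * (2 - gam s c))) ≠ 0 := by
      apply neg_ne_zero.2
      positivity
    have key := HasDerivAt.of_local_left_inverse (f := fun g => (Lam c - Lam g) / (2 - g) ^ 2)
      (g := fun s' => gam s' c) (a := s) hc hS hne (by
        refine Eventually.of_forall (fun s' => ?_)
        obtain ⟨q1, q2, q3, q4⟩ := gam_root h s' c h0 h1
        have e6 : 0 < 2 - gam s' c := by linarith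
        show (Lam c - Lam (gam s' c)) / (2 - gam s' c) ^ 2 = s'
        have e7 : Lam c - Lam (gam s' c) = (2 - gam s' c) ^ 2 * s' := by linarith
        rw [e7]
        field_simp)
    have e8 : (-((1 - 2 * s * gam s c) / (gam s c * (2 - gam s c))))⁻¹ =
        -(gam s c * (2 - gam s c) / (1 - 2 * s * gam s c)) := by
      rw [inv_neg, inv_div]
    rw [e8] at key
    exact key

end Pool.Agent.W54.CW
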